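import Pool.Agent.Helper20.MH.Goals

/-!
# Packet MH-OKM (MP_c578c8_lc): bounds of the codes; the heads do not leave their neighbourhoods
-/

namespace Pool.Agent.Helper56.MH

open Pool.Agent.Helper65.LinSpace Pool.Agent.Helper78.Mpc Pool.Agent.Helper28.Ram Finset
open Pool.Agent.Helper20.MH

variable (m : Prm)

theorem cq_lt (q k : ℕ) : m.cq q k < 2 ^ m.κ := dig_lt (by positivity) _ _

theorem wq_lt (q : ℕ) : m.wq q < 2 ^ (m.S + 1) := Nat.mod_lt _ (by positivity)

theorem mk_lt {u : ℕ} {f : ℕ → ℕ} (hu : u < 2 ^ (m.S + 1))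
    (hf : ∀ k < m.K * m.D, f k < 2 ^ m.κ) :
    m.mk' u f < 2 ^ (m.S + 1 + m.κ * (m.K * m.D)) := by
  have ht : tab (2 ^ m.κ) (m.K * m.D) f < (2 ^ m.κ) ^ (m.K * m.D) := tab_lt hf
  unfold Prm.mk'
  rw [pow_add 2 (m.S + 1) (m.κ * (m.K * m.D)), pow_mul]
  calc u + 2 ^ (m.S + 1) * tab (2 ^ m.κ) (m.K * m.D) f
      < 2 ^ (m.S + 1) + 2 ^ (m.S + 1) * tab (2 ^ m.κ) (m.K * m.D) f := by omega
    _ = 2 ^ (m.S + 1) * (tab (2 ^ m.κ) (m.K * m.D) f + 1) := by ring
    _ ≤ _ := Nat.mul_le_mul_left _ ht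

theorem cq_mk {u : ℕ} {f : ℕ → ℕ} (hu : u < 2 ^ (m.S + 1))
    (hf : ∀ k < m.K * m.D, f k < 2 ^ m.κ) {k : ℕ} (hk : k < m.K * m.D) :
    m.cq (m.mk' u f) k = f k := by
  have e1 : m.mk' u f / 2 ^ (m.S + 1) = tab (2 ^ m.κ) (m.K * m.D) f := by
    unfold Prm.mk'
    rw [Nat.add_mul_div_left _ _ (by positivity), Nat.div_eq_of_lt hu, zero_add]
  unfold Prm.cq
  rw [e1]
  exact dig_tab hf hk

theorem nu_lt (q v : ℕ) : m.nu q v < 2 ^ (m.S + 1) := capN_lt _ _

theorem fN_lt (q v : ℕ) : m.fN q v < 2 ^ (m.S + 1 + m.κ * (m.K * m.D)) := by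
  unfold Prm.fN ifz
  split_ifs
  · exact mk_lt m (nu_lt m q v) fun k _ => Nat.mod_lt _ (by positivity)
  · exact mk_lt m (by positivity) fun k _ => cq_lt m q k
  · exact mk_lt m (wq_lt m q) fun k _ => cq_lt m q k

theorem fW_lt (q v i : ℕ) : m.fW q v i < 2 ^ (m.S + 1) := by
  unfold Prm.fW ifz
  split_ifs
  · exact capN_lt _ _
  · exact dig_lt (by positivity) _ _

theorem fB_lt (q : ℕ) : m.fB q < 2 ^ (m.κ * (m.K * m.D) + 1) := by
  have h1 : m.fB q < (2 ^ m.κ) ^ (m.K * m.D) :=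
    tab_lt fun k _ => (Nat.div_le_self _ _).trans_lt (cq_lt m q k)
  rw [← pow_mul] at h1
  exact h1.trans (Nat.pow_lt_pow_right (by norm_num) (Nat.lt_succ_self _))

theorem sys_ok (hκ : 0 < m.κ) (hc : 0 < m.c) : m.sys.Ok where
  hsg := by
    change 0 < m.S + 1 + m.κ * (m.K * m.D)
    omega
  hτ := Nat.succ_pos _
  hσ := Nat.succ_pos _
  hc := hc
  hu0 := mk_lt m (capN_lt _ _) fun _ _ => Nat.pow_lt_pow_right (by norm_num) (by omega)
  hM0 := Nat.one_lt_two_pow (Nat.succ_ne_zero _)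
  hN := fN_lt m
  hW := fW_lt m
  hB := fB_lt m

/-- In one step the coordinates change by at most one. -/
theorem step_le (q v : ℕ) {k : ℕ} (hk : k < m.K * m.D) :
    m.cq (m.fN q v) k ≤ m.cq q k + 1 ∧ m.cq q k ≤ m.cq (m.fN q v) k + 1 := by
  unfold Prm.fN
  by_cases h1 : accN (m.wq q) = 0
  · rw [h1, ifz_zero]
    by_cases h2 : m.bad q v = 0
    · rw [h2, ifz_zero, cq_mk m (nu_lt m q v) (fun k _ => Nat.mod_lt _ (by positivity)) hk]
      have h3 : m.viol q (m.nu q v) = 0 := by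
        unfold Prm.bad at h2
        omega
      unfold Prm.viol at h3
      have h4 := Finset.sum_eq_zero_iff.1 h3 k (mem_range.2 hk)
      have hp : Prm.pl (m.nu q v) k ≤ 1 := by
        unfold Prm.pl eq01
        split_ifs <;> omega
      have hm : Prm.mi (m.nu q v) k ≤ 1 := by
        unfold Prm.mi eq01
        split_ifs <;> omega
      have h5 : Prm.mi (m.nu q v) k ≤ m.cq q k + Prm.pl (m.nu q v) k ∧
          m.cq q k + Prm.pl (m.nu q v) k - Prm.mi (m.nu q v) k < 2 ^ m.κ := by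
        unfold le01 lt01 at h4
        by_contra hcon
        rw [not_and_or] at hcon
        rcases hcon with h | h
        · rw [if_neg h] at h4
          omega
        · rw [if_neg h] at h4
          omega
      rw [Nat.mod_eq_of_lt h5.2]
      omega
    · rw [ifz_ne h2, cq_mk m (by positivity) (fun k _ => cq_lt m q k) hk]
      omega
  · rw [ifz_ne h1, cq_mk m (wq_lt m q) (fun k _ => cq_lt m q k) hk]
    omega

/-- In `r` steps the coordinates change by at most `r`. -/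
theorem steps_le (t r : ℕ) {k : ℕ} (hk : k < m.K * m.D) :
    m.cq (m.sys.conf (t + r)).1 k ≤ m.cq (m.sys.conf t).1 k + r ∧
      m.cq (m.sys.conf t).1 k ≤ m.cq (m.sys.conf (t + r)).1 k + r := by
  induction r with
  | zero => exact ⟨le_refl _, le_refl _⟩
  | succ r ih =>
    have e : (m.sys.conf (t + (r + 1))).1 =
        m.fN (m.sys.conf (t + r)).1 (m.sys.rd (m.sys.conf (t + r)).2 (m.sys.conf (t + r)).1) := rfl
    rw [e]
    have h := step_le m (m.sys.conf (t + r)).1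
      (m.sys.rd (m.sys.conf (t + r)).2 (m.sys.conf (t + r)).1) hk
    omega

theorem okm : OKM_stmt := by
  intro m hκ hc
  refine ⟨sys_ok m hκ hc, ?_⟩
  intro t r i hr hi
  change r < m.c at hr
  change i < m.K at hi
  have hK : 0 < m.K := by omega
  set a := fun k => m.cq (m.sys.conf t).1 (i * m.D + k) with ha
  set a' := fun k => m.cq (m.sys.conf (t + r)).1 (i * m.D + k) with ha'
  have hlt : ∀ k < m.D, i * m.D + k < m.K * m.D := by
    intro k hk
    calc i * m.D + k < i * m.D + m.D := by omega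
      _ = (i + 1) * m.D := by ring
      _ ≤ m.K * m.D := Nat.mul_le_mul_right _ hi
  have hb : ∀ k < m.D, a' k ≤ a k + r ∧ a k ≤ a' k + r := fun k hk =>
    steps_le m t r (hlt k hk)
  set δ := fun k => a' k + m.c - a k / m.c * m.c with hδ
  have hδ1 : ∀ k < m.D, δ k < 3 * m.c ∧ a k / m.c * m.c ≤ a' k + m.c := by
    intro k hk
    obtain ⟨h1, h2⟩ := hb k hk
    have h3 : a k / m.c * m.c ≤ a k := Nat.div_mul_le_self _ _
    have h4 : a k < a k / m.c * m.c + m.c := Nat.lt_div_mul_add hc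
    change a' k + m.c - a k / m.c * m.c < 3 * m.c ∧ _
    omega
  set T := tab (3 * m.c) m.D δ with hT
  have hTlt : T < (3 * m.c) ^ m.D := tab_lt fun k hk => (hδ1 k hk).1
  have hj1 : (i + m.K * T) % m.K = i := by
    rw [Nat.add_mul_mod_self_left, Nat.mod_eq_of_lt hi]
  have hj2 : (i + m.K * T) / m.K = T := by
    rw [Nat.add_mul_div_left _ _ hK, Nat.div_eq_of_lt hi, zero_add]
  refine ⟨i + m.K * T, ?_, ?_⟩
  · change i + m.K * T < m.K * (3 * m.c) ^ m.D
    calc i + m.K * T < m.K + m.K * T := by omega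
      _ = m.K * (T + 1) := by ring
      _ ≤ _ := Nat.mul_le_mul_left _ hTlt
  · change m.nb (m.fB (m.sys.conf t).1) (i + m.K * T) = m.cell (m.sys.conf (t + r)).1 i
    unfold Prm.nb Prm.cell
    rw [hj1, hj2]
    congr 2
    refine tab_congr fun k hk => ?_
    have e1 : dig (2 ^ m.κ) (m.fB (m.sys.conf t).1) (i * m.D + k) = a k / m.c := by
      unfold Prm.fB
      rw [dig_tab (fun k _ => (Nat.div_le_self _ _).trans_lt (cq_lt m _ k)) (hlt k hk)]
    have e2 : dig (3 * m.c) T k = δ k := dig_tab (fun k hk => (hδ1 k hk).1) hk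
    rw [e1, e2]
    have h5 := (hδ1 k hk).2
    have e3 : a k / m.c * m.c + δ k - m.c = a' k := by
      change a k / m.c * m.c + (a' k + m.c - a k / m.c * m.c) - m.c = a' k
      omega
    rw [e3]
    exact Nat.mod_eq_of_lt (cq_lt m _ _)

end Pool.Agent.Helper56.MH
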