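import Pool.Agent.Helper81.MH.Goals

set_option autoImplicit false

namespace Pool.Agent.Helper56.MH

open Set Cardinal Filter
open Pool.Agent.Helper81.SB Pool.Agent.Helper81.MH

/-- An infinite set of countable ordinals contains a strictly increasing sequence. -/
theorem exists_seq (T : Set W) (hT : T.Infinite) : ∃ c : ℕ → W, StrictMono c ∧ ∀ i, c i ∈ T := by
  have hinf : Infinite T := hT.to_subtype
  obtain ⟨e⟩ : Nonempty (ℕ ↪ T) := ⟨Infinite.natEmbedding T⟩
  obtain ⟨g, hg | hg⟩ := exists_increasing_or_nonincreasing_subseq (fun a b : W => a < b)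
    (fun n => (e n : W))
  · exact ⟨fun i => (e (g i) : W), fun m n h => hg m n h, fun i => (e (g i)).2⟩
  · exfalso
    have hdec : ∀ n, ((e (g (n + 1)) : T) : W) < (e (g n) : W) := by
      intro n
      have h1 := hg n (n + 1) (Nat.lt_succ_self n)
      have h2 : ((e (g (n + 1)) : T) : W) ≠ (e (g n) : W) := by
        intro h
        have h3 := g.injective (e.injective (Subtype.ext h))
        omega
      exact lt_of_le_of_ne (not_lt.mp h1) h2
    have hwf : WellFounded (fun a b : W => a < b) := wellFounded_lt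
    obtain ⟨m, ⟨n, hn⟩, hmin⟩ := hwf.has_min (range fun n => ((e (g n) : T) : W)) ⟨_, 0, rfl⟩
    exact hmin _ ⟨n + 1, rfl⟩ (hn ▸ hdec n)

theorem goal_CM : Goal_CM := by
  classical
  rintro ⟨𝒯, hcard, hinf, hguess⟩
  choose! c hc hcT using fun (T : Set W) (hT : T ∈ 𝒯) => exists_seq T (hinf T hT)
  refine ⟨(fun T => (c T, fun i => (Nat.unpair i).1)) '' 𝒯, mk_image_le.trans hcard, ?_, ?_⟩
  · rintro _ ⟨T, hT, rfl⟩
    exact (hc T hT).monotone
  · intro F
    have hE : Pool.Agent.Helper81.MH.IsClub {γ : W | ∀ β < γ, F β < γ} := by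
      constructor
      · intro α
        obtain ⟨γ, h1, h2⟩ := exists_closed F α
        exact ⟨γ, h2, h1⟩
      · intro γ _ hγ β hβ
        obtain ⟨ε, hε, h1, h2⟩ := hγ β hβ
        exact (hε β h1).trans h2
    obtain ⟨T, hT, hTE⟩ := hguess _ hE
    refine ⟨_, ⟨T, hT, rfl⟩, fun n => ?_⟩
    have hall : ∀ i, F (c T i) ≤ c T (i + 1) := fun i =>
      (hTE (hcT T hT (i + 1)) (c T i) (hc T hT (Nat.lt_succ_self i))).le
    have hinj : Function.Injective fun m : ℕ => Nat.pair n m := by
      intro a b h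
      have h1 := congrArg Nat.unpair h
      simp only [Nat.unpair_pair, Prod.mk.injEq, true_and] at h1
      exact h1
    refine (infinite_range_of_injective hinj).mono ?_
    rintro _ ⟨m, rfl⟩
    refine ⟨?_, hall _⟩
    show (Nat.unpair (Nat.pair n m)).1 = n
    rw [Nat.unpair_pair]

end Pool.Agent.Helper56.MH
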